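import Mathlib
import Pool.Agent.Helper32.RA7.Br
import Pool.Agent.Helper74.RA7.Fin

set_option autoImplicit false

/-! MP_65b7ad_lc, Q1 (full answer, positive): for finite symmetric relation algebras with a flexible
atom, if some consistency procedure solves the network satisfaction problem, then so does path
consistency, i.e. the (2,3)-consistency procedure. -/

namespace Pool.Agent.Results.MP_65b7ad_lc.PathConsistency

open Pool.Agent.Helper32.RA7

theorem result (A : Type) [BooleanAlgebra A] [Finite A] (R : RelAlg A) (hs : R.Symm)
    (hi : R.Integral) (hf : ∃ s : A, R.Flexible s)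
    (h : ∃ l k : ℕ, l ≤ k ∧ Solves R l k) : Solves R 2 3 :=
  tBJ RA7.stCore A R hs hi hf h

end Pool.Agent.Results.MP_65b7ad_lc.PathConsistency
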